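import Pool.Agent.X310.RcE

/-!
# Reduction of the conjecture on `μ`-invariants to `T = ℤ_p` over real fields and CM fields

Let `p` be an odd prime; number fields are subfields of a fixed algebraic closure of `ℚ`. For a number
field `K` and a finite `𝔽_p`-representation `M` of the Galois group over `K` let `V K M` be the
statement `H²(G_S(K_∞), M) = 0`, where `K_∞` is the cyclotomic `ℤ_p`-extension of `K` and `S` is a
finite set of places which contains those above `p` and `∞` and those where `M` is ramified. The data
`d = (𝒬, K, L, T, S, Σ)` of the problem enter through the field `L d = L`, the residual representation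
`T/πT` of the Galois group over `L`, and the statement `Holds d` (the module `H²_{Σ,Iw}(𝒪_{L,S}, T)` is
torsion with `μ = 0`), which is known to be equivalent to `V L (T/πT)`. One can also take
`H²(G_S(K_∞), M(1)) = 0` for `V K M` and `T/πT(-1)` instead of `T/πT`; then `T = ℤ_p(1)` takes the place
of `T = ℤ_p`, for which Q1 is the conjecture of Iwasawa for the class groups.

Theorem. (1) Q1 for all data is equivalent to Q1 for `T = ℤ_p` and `L = K`, where `K` runs through the
number fields which have a real embedding and the CM fields of degree prime to `p`, and it is enough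
to take those `K` for which `Aut K` has an irreducible `𝔽_p`-module on which only `1` fixes a nonzero
vector (so that `Aut K` is trivial or a Frobenius complement of order prime to `p`).

(1') If `Aut M` has no such module, then Q1 for `T = ℤ_p` over `M` follows from Q1 for `T = ℤ_p` over the
proper subfields of `M`.

(2) Let `N` be a finite Galois extension of `ℚ` and `c` a complex conjugation. Let `N⁺` be the field of
the elements of `N` which are fixed by `c`, and `N'` the largest subfield of `N` on which `c` commutes
with all automorphisms of the algebraic closure (it is totally real or CM). Q1 for `T = ℤ_p` over `N` is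
equivalent to Q1 for `T = ℤ_p` over `N⁺` and over `N'`, and to that over `N⁺` if `N' ⊂ N⁺` (for example
if the Galois group of `N` is a nonabelian simple group); and it implies Q1 for all data with
`L ⊂ N` whose residual representation is trivial over `N`.

(3) Let `L = ℚ`, let the residual representation be irreducible and trivial over `N`, and let `c` fix a
nonzero vector of it (for example `T = T_p(E)` for an elliptic curve `E` with irreducible `E[p]` and
`N = ℚ(E[p])`). Then Q1 for `T = ℤ_p` over the single real field `N⁺` implies Q1 for `T`.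
-/

set_option autoImplicit false

universe u

namespace Pool.Agent.Results.MP_519cc8_nt.RealAndCMFields

open Pool.Agent.X307.MU Pool.Agent.X310.Rc NumberField

/-- Reduction of Q1 for all data to `T = ℤ_p` over the fields with a real embedding and the CM fields of
degree prime to `p`; the same for the data which belong to one Galois extension `N`. -/
theorem result {p : ℕ} [Fact p.Prime] (hp : p ≠ 2) (V : (K : Fld ℚ) → GMod p (Gal K) → Prop)
    (hV : IsGaloisClass p V) (I : IwasawaData.{u} p) (hI : IsIwasawaData V I) (d₀ : Fld ℚ → I.D)
    (h₀ : IsTrivialDatum V I d₀) :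
    ((∀ d, I.Holds d) ↔ ∀ K : Fld ℚ, FiniteDimensional ℚ K →
      (HasRealPlace K ∨ (IsCMField K ∧ ¬ p ∣ Module.finrank ℚ K)) → HasFreeModule p (AutOf K) →
      I.Holds (d₀ K)) ∧
    (∀ M : Fld ℚ, FiniteDimensional ℚ M → ¬ HasFreeModule p (AutOf M) →
      (∀ L, L < M → I.Holds (d₀ L)) → I.Holds (d₀ M)) ∧
    ∀ (N : Fld ℚ) (c : Aut ℚ), FiniteDimensional ℚ N → Normal ℚ N → IsConjugation c →
      (I.Holds (d₀ N) ↔ I.Holds (d₀ (realPart N c)) ∧ I.Holds (d₀ (cmPart N c))) ∧
      (cmPart N c ≤ realPart N c → (I.Holds (d₀ N) ↔ I.Holds (d₀ (realPart N c)))) ∧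
      (I.Holds (d₀ N) → ∀ d, I.L d ≤ N → TrivialOn N (I.res d) → I.Holds d) ∧
      (I.Holds (d₀ (realPart N c)) → ∀ d, I.L d = ⊥ → TrivialOn N (I.res d) →
        IsIrreducible (I.res d) → HasFixedVector (I.res d) c → I.Holds d) ∧
      HasRealPlace (realPart N c) ∧ (HasRealPlace (cmPart N c) ∨ IsCMField (cmPart N c)) := by
  refine ⟨⟨fun h K _ _ _ => h _, fun h d => ?_⟩, fun M hM hfree h => (h₀ M hM).2 (step hV M hfree
    fun L hL => (h₀ L (fd_of_le hL.le)).1 (h L hL)), ?_⟩
  · obtain ⟨c, hc⟩ := exists_conj (k := ℚ) (algebraMap ℚ ℂ) (fun x => by simp)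
    rw [hI.criterion]
    exact all_of hp hc hV (fun K hK hK' hf => (h₀ K hK).1 (h K hK hK' hf)) _ (hI.finite d) _ (hI.smooth d)
  · intro N c hN hnor hc
    have hn : N.fixingSubgroup.Normal := normal_fix N (hN := hnor)
    have h1 : FiniteDimensional ℚ (realPart N c) := fd_of_le (real_le N c)
    have h2 : FiniteDimensional ℚ (cmPart N c) := fd_of_le (cm_le N c)
    have hc2 := conj_sq hc
    refine ⟨?_, ?_, ?_, ?_, real_part_real hc N, cm_part_cm hc N⟩
    · rw [h₀ _ hN, h₀ _ h1, h₀ _ h2]
      exact ⟨fun h => ⟨down hV N _ (real_le N c) h, down hV N _ (cm_le N c) h⟩,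
        fun h => rel_pair hV hc2 N h.1 h.2⟩
    · intro hle
      rw [h₀ _ hN, h₀ _ h1]
      exact ⟨fun h => down hV N _ (real_le N c) h, fun h => rel_single hV hc2 N hle h⟩
    · intro h d hd hX
      rw [hI.criterion]
      exact rel_top hV _ N hd ((h₀ _ hN).1 h) _ hX
    · intro h d hd hX hirr hfix
      rw [hI.criterion]
      exact single hV N _ hd _ hX hirr hfix ((h₀ _ h1).1 h)

end Pool.Agent.Results.MP_519cc8_nt.RealAndCMFields
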