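import Pool.Agent.X307.MU.Main

/-!
# Reduction of the conjecture on `μ`-invariants to `T = ℤ_p` over fields of degree prime to `p`

Let `p` be an odd prime and let `k` be a number field, for example `k = ℚ`; all number fields are
subfields of a fixed algebraic closure of `k`. For a finite extension `K` of `k` and a finite
`𝔽_p`-representation `M` of the Galois group over `K` let `V K M` be the statement
`H²(G_S(K_∞), M) = 0`, where `K_∞` is the cyclotomic `ℤ_p`-extension of `K` and `S` is a finite set of
places which contains those above `p` and `∞` and those where `M` is ramified.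

The data `d = (𝒬, K, L, T, S, Σ)` of the problem with `k ⊂ L` enter through the field `L d = L`, the
residual representation `T/πT` of the Galois group over `L`, and the statement `Holds d` (the module
`H²_{Σ,Iw}(𝒪_{L,S}, T)` is torsion with `μ = 0`), which is known to be equivalent to
`V L (T/πT)`.

Theorem. Let `K₀` be a finite extension of `k` of degree prime to `p`. Q1 for all data over `k` is
equivalent to each of the following:
(1) `H²(G_S(K_∞), M) = 0` for all `K` and all `M`;
(2) Q1 for `T = ℤ_p` and `L = K`, for all number fields `K` which contain `K₀` and whose degree over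
`k` is prime to `p`;
(3) Q1 for `T = ℤ_p` and `L = K`, for all `K` in a class `𝒦` of number fields containing `K₀`, if each
irreducible finite `𝔽_p`-representation of the Galois group of `k` has a nonzero vector fixed by the
Galois group of some field in `𝒦`.

If `K₀` contains the `p`-th roots of unity, then one may take `T = ℤ_p(1)` instead of `ℤ_p` in (2) and
(3), so that (2) is Iwasawa's conjecture for the class groups of the fields `K`.
-/

set_option autoImplicit false

universe u

namespace Pool.Agent.Results.MP_519cc8_nt.SylowSubfields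

open Pool.Agent.X307.MU

/-- The data `d` of the problem: the field `L d`, the residual representation of the Galois group over
`L d`, and the statement of Q1 for `d`. -/
structure IwasawaData (k : Type) [Field k] (p : ℕ) where
  D : Type u
  L : D → Fld k
  res : (d : D) → GMod p (Gal (L d))
  Holds : D → Prop

/-- `L d` is finite over `k`, the residual representation is smooth, and the known criterion: Q1 for
`d` is equivalent to `V (L d) (res d)`. -/
structure IsIwasawaData {k : Type} [Field k] {p : ℕ} (V : (K : Fld k) → GMod p (Gal K) → Prop)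
    (I : IwasawaData.{u} k p) : Prop where
  finite : ∀ d, FiniteDimensional k (I.L d)
  smooth : ∀ d, IsSmooth (I.res d)
  criterion : ∀ d, I.Holds d ↔ V (I.L d) (I.res d)

/-- `d₀ K` is a datum (for example `T = ℤ_p`, `L = K`) with trivial residual representation `𝔽_p` over
`K`, for the number fields `K` containing `K₀`. -/
def IsTrivialDatum {k : Type} [Field k] {p : ℕ} [Fact p.Prime]
    (V : (K : Fld k) → GMod p (Gal K) → Prop) (I : IwasawaData.{u} k p) (K₀ : Fld k)
    (d₀ : Fld k → I.D) : Prop :=
  ∀ K : Fld k, K₀ ≤ K → FiniteDimensional k K →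
    (I.Holds (d₀ K) ↔ V K (trivialMod p (Gal K)))

/-- Q1 for all data over `k`. -/
def Q1 {k : Type} [Field k] {p : ℕ} (I : IwasawaData.{u} k p) : Prop := ∀ d, I.Holds d

/-- Q1 for all data is equivalent to Q1 for `T = ℤ_p` over the fields of degree prime to `p` which
contain `K₀`; to Q1 for `T = ℤ_p` over the fields in any rich class; and to the vanishing of all
`H²(G_S(K_∞), M)`. -/
theorem result {k : Type} [Field k] [NumberField k] {p : ℕ} [Fact p.Prime]
    (V : (K : Fld k) → GMod p (Gal K) → Prop) (hV : IsGaloisClass p V) (I : IwasawaData.{u} k p)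
    (hI : IsIwasawaData V I) (K₀ : Fld k) [FiniteDimensional k K₀]
    (hK₀ : ¬ p ∣ Module.finrank k K₀) (d₀ : Fld k → I.D) (h₀ : IsTrivialDatum V I K₀ d₀) :
    (Q1 I ↔ ∀ (K : Fld k) (X : GMod p (Gal K)), FiniteDimensional k K → IsSmooth X → V K X) ∧
    (Q1 I ↔ ∀ K : Fld k, K₀ ≤ K → FiniteDimensional k K → ¬ p ∣ Module.finrank k K →
      I.Holds (d₀ K)) ∧
    ∀ 𝒦 : Set (Fld k), (∀ K ∈ 𝒦, K₀ ≤ K ∧ FiniteDimensional k K) → IsRich p 𝒦 →
      (Q1 I ↔ ∀ K ∈ 𝒦, I.Holds (d₀ K)) := by
  have key : ∀ 𝒦 : Set (Fld k), (∀ K ∈ 𝒦, K₀ ≤ K ∧ FiniteDimensional k K) → IsRich p 𝒦 →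
      (∀ K ∈ 𝒦, I.Holds (d₀ K)) → ∀ (K : Fld k) (X : GMod p (Gal K)), FiniteDimensional k K →
        IsSmooth X → V K X := by
    intro 𝒦 h𝒦 hrich h K X hK hX
    exact hV.all 𝒦 (fun K hK => (h𝒦 K hK).2) hrich
      (fun K hK => (h₀ K (h𝒦 K hK).1 (h𝒦 K hK).2).mp (h K hK)) K hK X hX
  have key2 : (∀ (K : Fld k) (X : GMod p (Gal K)), FiniteDimensional k K → IsSmooth X → V K X) →
      Q1 I := fun h d => (hI.criterion d).mpr (h _ _ (hI.finite d) (hI.smooth d))
  have hrich₀ := isRich_degree (p := p) K₀ hK₀
  refine ⟨⟨fun h => key _ (fun K hK => ⟨hK.2.1, hK.1⟩) hrich₀ (fun K _ => h _), key2⟩,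
    ⟨fun h K _ _ _ => h _, fun h => key2 (key _ (fun K hK => ⟨hK.2.1, hK.1⟩) hrich₀
      (fun K hK => h K hK.2.1 hK.1 hK.2.2))⟩, fun 𝒦 h𝒦 hrich => ⟨fun h K _ => h _, fun h =>
        key2 (key 𝒦 h𝒦 hrich h)⟩⟩

end Pool.Agent.Results.MP_519cc8_nt.SylowSubfields
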